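import Pool.Agent.H58.CT.Targets

/-!
# Mixing is inherited by smooth absorbing subuniverses
-/

set_option autoImplicit false

namespace Pool.Agent.H33.CT

open Pool.Agent.H58.CT

section paths

variable {E : Type} {S : Set (E × E)}

/-- the elements reached from a set are reached from its elements -/
theorem mem_iter (D : Set E) (n : ℕ) (W : Set E) (y : E) :
    y ∈ (nx S D)^[n] W ↔ ∃ x ∈ W, y ∈ (nx S D)^[n] {x} := by
  induction n generalizing y with
  | zero => simp
  | succ n ih =>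
    simp only [Function.iterate_succ_apply']
    constructor
    · rintro ⟨hy, z, hz, hzy⟩
      obtain ⟨x, hx, hxz⟩ := (ih z).1 hz
      exact ⟨x, hx, hy, z, hxz, hzy⟩
    · rintro ⟨x, hx, hy, z, hz, hzy⟩
      exact ⟨hy, z, (ih z).2 ⟨x, hx, hz⟩, hzy⟩

/-- a smooth set is mapped to itself -/
theorem nx_self {C : Set E} (hC : Smooth S C) : nx S C C = C :=
  Set.ext fun y => ⟨fun h => h.1, fun hy => ⟨hy, hC.2 y hy⟩⟩

theorem iter_self {C : Set E} (hC : Smooth S C) (n : ℕ) : (nx S C)^[n] C = C := by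
  induction n with
  | zero => rfl
  | succ n ih => rw [Function.iterate_succ_apply', ih, nx_self hC]

end paths

section alg

variable {𝒞 : Cln} {E : Type} [Alg 𝒞 E] {S : Set (E × E)}

theorem int_pair (hS : Sub 𝒞 S) {I : Type} [Finite I] (t : 𝒞.T I) (x y : I → E)
    (h : ∀ i, (x i, y i) ∈ S) : (Alg.int t x, Alg.int t y) ∈ S :=
  hS I t (fun i => (x i, y i)) h

/-- one step from an absorbing subuniverse of a smooth subuniverse -/
theorem abs_nx {C : Set E} (hS : Sub 𝒞 S) (hC : Sub 𝒞 C) (hCs : Smooth S C) {X : Set E}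
    (hX : Abs 𝒞 X C) : Abs 𝒞 (nx S C X) C := by
  obtain ⟨⟨a, ha⟩, hXs, hXC, I, hI, t, ht⟩ := hX
  refine ⟨?_, ?_, fun y hy => hy.1, I, hI, t, ?_⟩
  · obtain ⟨y, hy, hay⟩ := hCs.1 a (hXC ha)
    exact ⟨y, hy, a, ha, hay⟩
  · intro J _ s y hy
    choose x hx hxy using fun j => (hy j).2
    exact ⟨hC J s y fun j => (hy j).1, Alg.int s x, hXs J s x hx, int_pair hS s x y hxy⟩
  · intro i y hy hy'
    have hz : ∀ j, ∃ z, z ∈ C ∧ (j ≠ i → z ∈ X) ∧ (z, y j) ∈ S := by
      intro j
      by_cases hj : j = i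
      · obtain ⟨z, hz, hzy⟩ := hCs.2 (y j) (hy j)
        exact ⟨z, hz, fun h => (h hj).elim, hzy⟩
      · obtain ⟨_, z, hz, hzy⟩ := hy' j hj
        exact ⟨z, hXC hz, fun _ => hz, hzy⟩
    choose z hz using hz
    exact ⟨hC I t y hy, Alg.int t z, ht i z (fun j => (hz j).1) fun j hj => (hz j).2.1 hj,
      int_pair hS t z y fun j => (hz j).2.2⟩

theorem abs_iter {C : Set E} (hS : Sub 𝒞 S) (hC : Sub 𝒞 C) (hCs : Smooth S C) {X : Set E}
    (hX : Abs 𝒞 X C) (n : ℕ) : Abs 𝒞 ((nx S C)^[n] X) C := by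
  induction n with
  | zero => exact hX
  | succ n ih => rw [Function.iterate_succ_apply']; exact abs_nx hS hC hCs ih

/-- the value of an absorbing term moves inside `C`, if all entries but one do -/
theorem move {V C : Set E} (hS : Sub 𝒞 S) (hCV : C ⊆ V) {I : Type} [Finite I] (t : 𝒞.T I)
    (ht : AbsBy 𝒞 t C V) (i : I) (n : ℕ) (x y : I → E)
    (h : ∀ j, j ≠ i → y j ∈ (nx S C)^[n] {x j}) (hi : y i ∈ (nx S V)^[n] {x i}) :
    Alg.int t y ∈ (nx S C)^[n] {Alg.int t x} := by
  induction n generalizing y with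
  | zero =>
    have : y = x := by
      funext j
      by_cases hj : j = i
      · rw [hj]; exact hi
      · exact h j hj
    rw [this]
    exact Set.mem_singleton _
  | succ n ih =>
    simp only [Function.iterate_succ_apply'] at h hi ⊢
    have hz : ∀ j, ∃ z, (y j ∈ V ∧ (j ≠ i → y j ∈ C)) ∧ (j ≠ i → z ∈ (nx S C)^[n] {x j}) ∧
        (j = i → z ∈ (nx S V)^[n] {x j}) ∧ (z, y j) ∈ S := by
      intro j
      by_cases hj : j = i
      · subst hj
        obtain ⟨h1, z, hz, hzy⟩ := hi
        exact ⟨z, ⟨h1, fun h => (h rfl).elim⟩, fun h => (h rfl).elim, fun _ => hz, hzy⟩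
      · obtain ⟨h1, z, hz, hzy⟩ := h j hj
        exact ⟨z, ⟨hCV h1, fun _ => h1⟩, fun _ => hz, fun h => (hj h).elim, hzy⟩
    choose z hz using hz
    refine ⟨ht i y (fun j => (hz j).1.1) fun j hj => (hz j).1.2 hj, Alg.int t z, ?_,
      int_pair hS t z y fun j => (hz j).2.2.2⟩
    exact ih z (fun j hj => (hz j).2.1 hj) ((hz i).2.2.1 rfl)

end alg

/-- LBA -/
theorem pf_LBA : T_LBA := by
  classical
  intro 𝒞 E _ _ S V C hS _ _ hM hCA hCs W hW
  have hCV : C ⊆ V := hCA.2.2.1
  have hCsub : Sub 𝒞 C := hCA.2.1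
  obtain ⟨N, hN⟩ : ∃ N : ℕ, ∀ W', Abs 𝒞 W' V → (nx S V)^[N] W' = V := by
    have h1 : ∀ W' : Set E, ∃ n₀ : ℕ, Abs 𝒞 W' V → ∀ n, n₀ ≤ n → (nx S V)^[n] W' = V := by
      intro W'
      by_cases h : Abs 𝒞 W' V
      · obtain ⟨n₀, h₀⟩ := hM W' h
        exact ⟨n₀, fun _ => h₀⟩
      · exact ⟨0, fun h' => (h h').elim⟩
    choose f hf using h1
    obtain ⟨N, hN⟩ := (Set.finite_range f).bddAbove
    exact ⟨N, fun W' h' => hf W' h' N (hN ⟨W', rfl⟩)⟩
  have hWk : ∀ k, Abs 𝒞 ((nx S C)^[k] W) C := fun k => abs_iter hS hCsub hCs hW k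
  obtain ⟨I, hI, t, ht⟩ := hCA.2.2.2
  have := Fintype.ofFinite I
  have claim : ∀ J : Finset I, ∀ y : I → E, (∀ j, y j ∈ C) →
      (∀ j, j ∉ J → y j ∈ (nx S C)^[J.card * N] W) →
      Alg.int t y ∈ (nx S C)^[J.card * N] W := by
    intro J
    induction J using Finset.induction_on with
    | empty =>
      intro y _ hy
      have : (nx S C)^[(∅ : Finset I).card * N] W = W := by simp
      rw [this] at hy ⊢
      exact hW.2.1 I t y fun j => hy j (Finset.notMem_empty j)
    | insert i J hiJ ih =>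
      intro y hyC hy
      have hcard : (insert i J).card * N = N + J.card * N := by
        rw [Finset.card_insert_of_notMem hiJ]
        ring
      rw [hcard, Function.iterate_add_apply] at hy ⊢
      set X := (nx S C)^[J.card * N] W with hX
      have hXA : Abs 𝒞 X C := hWk _
      have hx : ∀ j, ∃ x, x ∈ C ∧ (j ∉ J → x ∈ X) ∧ (j ≠ i → y j ∈ (nx S C)^[N] {x}) ∧
          (j = i → y j ∈ (nx S V)^[N] {x}) := by
        intro j
        by_cases hji : j = i
        · have h1 : y j ∈ (nx S V)^[N] X := by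
            rw [hN X (abs_trans hXA hCA)]
            exact hCV (hyC j)
          obtain ⟨x, hx, hxy⟩ := (mem_iter V N X (y j)).1 h1
          exact ⟨x, hXA.2.2.1 hx, fun _ => hx, fun h => (h hji).elim, fun _ => hxy⟩
        · by_cases hjJ : j ∈ J
          · have h1 : y j ∈ (nx S C)^[N] C := by
              rw [iter_self hCs]
              exact hyC j
            obtain ⟨x, hx, hxy⟩ := (mem_iter C N C (y j)).1 h1
            exact ⟨x, hx, fun h => (h hjJ).elim, fun _ => hxy, fun h => (hji h).elim⟩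
          · have h1 := hy j (by
              intro h
              rcases Finset.mem_insert.1 h with h | h
              · exact hji h
              · exact hjJ h)
            obtain ⟨x, hx, hxy⟩ := (mem_iter C N X (y j)).1 h1
            exact ⟨x, hXA.2.2.1 hx, fun _ => hx, fun _ => hxy, fun h => (hji h).elim⟩
      choose x hx using hx
      have h2 : Alg.int t x ∈ X := ih x (fun j => (hx j).1) fun j hj => (hx j).2.1 hj
      have h3 := move hS hCV t ht i N x y (fun j hj => (hx j).2.2.1 hj) ((hx i).2.2.2 rfl)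
      exact (mem_iter C N X _).2 ⟨_, h2, h3⟩
  have hfull : (nx S C)^[Fintype.card I * N] W = C := by
    refine subset_antisymm (hWk _).2.2.1 fun c hc => ?_
    have h := claim Finset.univ (fun _ => c) (fun _ => hc) fun j hj =>
      (hj (Finset.mem_univ j)).elim
    rwa [Alg.idem] at h
  refine ⟨Fintype.card I * N, fun n hn => ?_⟩
  obtain ⟨e, rfl⟩ := Nat.exists_eq_add_of_le' hn
  rw [Function.iterate_add_apply, hfull, iter_self hCs]

end Pool.Agent.H33.CT
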